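import Pool.Agent.H699.T.Base

/-!
# Euler step: a connected even multigraph gives a closed tour
-/

set_option autoImplicit false

namespace Pool.Agent.H551.T.EULER

open Finset Classical Pool.Agent.H699.T

/-- Walks with cost and a set of visited points. -/
inductive Wk {α : Type} (d : α → α → ℝ) : α → α → ℝ → Finset α → Prop
  | nil (a : α) : Wk d a a 0 {a}
  | cons (a b e : α) (c : ℝ) (C : Finset α) : Wk d b e c C → Wk d a e (d a b + c) (insert a C)

theorem Wk.left {α : Type} {d : α → α → ℝ} {a b : α} {c : ℝ} {C : Finset α}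
    (h : Wk d a b c C) : a ∈ C := by
  cases h <;> simp

theorem Wk.right {α : Type} {d : α → α → ℝ} {a b : α} {c : ℝ} {C : Finset α}
    (h : Wk d a b c C) : b ∈ C := by
  induction h with
  | nil a => simp
  | cons a b e c C _ ih => exact Finset.mem_insert_of_mem ih

theorem Wk.trans {α : Type} {d : α → α → ℝ} {a b : α} {c : ℝ} {C : Finset α}
    (h : Wk d a b c C) : ∀ {e : α} {c' : ℝ} {C' : Finset α}, Wk d b e c' C' →
      Wk d a e (c + c') (C ∪ C') := by
  induction h with
  | nil a =>
    intro e c' C' h'
    have : ({a} : Finset α) ∪ C' = C' := by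
      rw [Finset.union_eq_right, Finset.singleton_subset_iff]
      exact h'.left
    rw [zero_add, this]
    exact h'
  | cons a b e c C _ ih =>
    intro e' c' C' h'
    have := Wk.cons a b e' _ _ (ih h')
    rw [add_assoc, Finset.insert_union]
    exact this

theorem Wk.edge {α : Type} {d : α → α → ℝ} (a b : α) : Wk d a b (d a b) {a, b} := by
  have := Wk.cons a b b 0 {b} (Wk.nil (d := d) b)
  rw [add_zero] at this
  exact this

theorem Wk.symm {α : Type} {d : α → α → ℝ} (hd : IsMet d) {a b : α} {c : ℝ} {C : Finset α}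
    (h : Wk d a b c C) : Wk d b a c C := by
  induction h with
  | nil a => exact Wk.nil a
  | cons a b e c C h ih =>
    have h1 := ih.trans (Wk.edge (d := d) b a)
    have h2 : C ∪ {b, a} = insert a C := by
      ext x
      simp only [Finset.mem_union, Finset.mem_insert, Finset.mem_singleton]
      constructor
      · rintro (h3 | h3 | h3)
        · exact Or.inr h3
        · right
          rw [h3]
          exact h.left
        · exact Or.inl h3
      · rintro (h3 | h3)
        · exact Or.inr (Or.inr h3)
        · exact Or.inl h3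
    rw [h2, hd.symm b a, add_comm] at h1
    exact h1

theorem Wk.split {α : Type} {d : α → α → ℝ} {a b : α} {c : ℝ} {C : Finset α}
    (h : Wk d a b c C) : ∀ x ∈ C, ∃ c₁ c₂ : ℝ, ∃ C₁ C₂ : Finset α,
      Wk d a x c₁ C₁ ∧ Wk d x b c₂ C₂ ∧ c₁ + c₂ = c ∧ C ⊆ C₁ ∪ C₂ := by
  induction h with
  | nil a =>
    intro x hx
    rw [Finset.mem_singleton] at hx
    subst hx
    exact ⟨0, 0, {x}, {x}, Wk.nil x, Wk.nil x, by ring, by simp⟩
  | cons a b e c C h ih =>
    intro x hx
    by_cases hxC : x ∈ C
    · obtain ⟨c₁, c₂, C₁, C₂, h1, h2, h3, h4⟩ := ih x hxC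
      refine ⟨d a b + c₁, c₂, insert a C₁, C₂, Wk.cons a b x _ _ h1, h2, by rw [← h3]; ring, ?_⟩
      rw [Finset.insert_union]
      exact Finset.insert_subset_insert _ h4
    · have hxa : x = a := by
        rcases Finset.mem_insert.1 hx with h3 | h3
        · exact h3
        · exact absurd h3 hxC
      subst hxa
      refine ⟨0, d x b + c, {x}, insert x C, Wk.nil x, Wk.cons x b e c C h, by ring, ?_⟩
      exact Finset.subset_union_right

theorem Wk.rot {α : Type} {d : α → α → ℝ} {a : α} {c : ℝ} {C : Finset α}
    (h : Wk d a a c C) (x : α) (hx : x ∈ C) : ∃ C' : Finset α, C ⊆ C' ∧ Wk d x x c C' := by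
  obtain ⟨c₁, c₂, C₁, C₂, h1, h2, h3, h4⟩ := h.split x hx
  refine ⟨C₂ ∪ C₁, ?_, ?_⟩
  · rw [Finset.union_comm]
    exact h4
  · have := h2.trans h1
    rw [add_comm, h3] at this
    exact this

theorem Wk.list {α : Type} {d : α → α → ℝ} (hd : IsMet d) {a b : α} {c : ℝ} {C : Finset α}
    (h : Wk d a b c C) : ∃ l : List α, (∀ x ∈ C, x ∈ a :: (l ++ [b])) ∧
      walk d (a :: (l ++ [b])) = c := by
  induction h with
  | nil a =>
    refine ⟨[], ?_, ?_⟩
    · intro x hx
      rw [Finset.mem_singleton] at hx
      simp [hx]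
    · simp [walk, hd.self]
  | cons a b e c C h ih =>
    obtain ⟨l, h1, h2⟩ := ih
    refine ⟨b :: l, ?_, ?_⟩
    · intro x hx
      rcases Finset.mem_insert.1 hx with h3 | h3
      · simp [h3]
      · exact List.mem_cons_of_mem _ (h1 x h3)
    · simp only [List.cons_append, walk]
      rw [h2]

/-- A walk object. -/
structure Ob (α : Type) where
  a : α
  b : α
  c : ℝ
  C : Finset α

/-- Number of ends of a walk object at `v`. -/
noncomputable def en {α : Type} (v : α) (o : Ob α) : ℕ :=
  (if o.a = v then 1 else 0) + (if o.b = v then 1 else 0)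

/-- The invariant. -/
structure Inv {α : Type} [Fintype α] (d : α → α → ℝ) (P : Multiset (Ob α)) : Prop where
  wk : ∀ o ∈ P, Wk d o.a o.b o.c o.C
  ev : ∀ v, Even ((P.map (en v)).sum)
  co : ∀ A : Finset α, A.Nonempty → A ≠ univ → ∃ o ∈ P, ∃ x ∈ o.C, ∃ y ∈ o.C, x ∈ A ∧ y ∉ A

theorem merge {α : Type} [Fintype α] {d : α → α → ℝ} {o o' o'' : Ob α} {Q : Multiset (Ob α)}
    (h : Inv d (o ::ₘ o' ::ₘ Q)) (hw : Wk d o''.a o''.b o''.c o''.C)
    (hC : o.C ∪ o'.C ⊆ o''.C)
    (he : ∀ v, Even (en v o + en v o' + en v o'')) : Inv d (o'' ::ₘ Q) := by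
  refine ⟨?_, ?_, ?_⟩
  · intro p hp
    rcases Multiset.mem_cons.1 hp with h1 | h1
    · rw [h1]
      exact hw
    · exact h.wk p (Multiset.mem_cons_of_mem (Multiset.mem_cons_of_mem h1))
  · intro v
    have h1 := h.ev v
    have h2 := he v
    simp only [Multiset.map_cons, Multiset.sum_cons] at h1 ⊢
    have h3 := h1.add h2
    have h4 : en v o + (en v o' + (Multiset.map (en v) Q).sum) + (en v o + en v o' + en v o'')
        = (en v o'' + (Multiset.map (en v) Q).sum) + 2 * (en v o + en v o') := by ring
    rw [h4] at h3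
    exact (Nat.even_add.1 h3).2 (even_two_mul _)
  · intro A hA hA'
    obtain ⟨p, hp, x, hx, y, hy, hxA, hyA⟩ := h.co A hA hA'
    rcases Multiset.mem_cons.1 hp with h1 | h1
    · refine ⟨o'', Multiset.mem_cons_self _ _, x, ?_, y, ?_, hxA, hyA⟩
      · exact hC (Finset.mem_union_left _ (h1 ▸ hx))
      · exact hC (Finset.mem_union_left _ (h1 ▸ hy))
    · rcases Multiset.mem_cons.1 h1 with h1 | h1
      · refine ⟨o'', Multiset.mem_cons_self _ _, x, ?_, y, ?_, hxA, hyA⟩
        · exact hC (Finset.mem_union_right _ (h1 ▸ hx))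
        · exact hC (Finset.mem_union_right _ (h1 ▸ hy))
      · exact ⟨p, Multiset.mem_cons_of_mem h1, x, hx, y, hy, hxA, hyA⟩

theorem core {α : Type} [Fintype α] {d : α → α → ℝ} (hd : IsMet d) : ∀ (n : ℕ)
    (P : Multiset (Ob α)), Multiset.card P = n + 1 → Inv d P →
      ∃ a : α, Wk d a a ((P.map Ob.c).sum) univ := by
  intro n
  induction n with
  | zero =>
    intro P hP hI
    obtain ⟨o, rfl⟩ := Multiset.card_eq_one.1 hP
    have hw := hI.wk o (Multiset.mem_singleton_self o)
    have hC : o.C = univ := by
      by_contra hne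
      obtain ⟨p, hp, x, hx, y, hy, hxA, hyA⟩ := hI.co o.C ⟨o.a, hw.left⟩ hne
      rw [Multiset.mem_singleton] at hp
      subst hp
      exact hyA hy
    have hab : o.a = o.b := by
      by_contra hab
      have h1 := hI.ev o.b
      simp only [Multiset.map_singleton, Multiset.sum_singleton, en, if_neg hab, if_true] at h1
      exact absurd h1 (by decide)
    refine ⟨o.a, ?_⟩
    rw [Multiset.map_singleton, Multiset.sum_singleton]
    rw [hC, ← hab] at hw
    exact hw
  | succ n ih =>
    intro P hP hI
    have key : ∃ (o o' o'' : Ob α) (Q : Multiset (Ob α)), P = o ::ₘ o' ::ₘ Q ∧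
        Wk d o''.a o''.b o''.c o''.C ∧ o.C ∪ o'.C ⊆ o''.C ∧ o''.c = o.c + o'.c ∧
        ∀ v, Even (en v o + en v o' + en v o'') := by
      by_cases hcl : ∀ o ∈ P, o.a = o.b
      · -- all walks are closed
        have hex : ∃ o ∈ P, True := by
          have : P ≠ 0 := by
            intro h0
            rw [h0, Multiset.card_zero] at hP
            omega
          obtain ⟨o, ho⟩ := Multiset.exists_mem_of_ne_zero this
          exact ⟨o, ho, trivial⟩
        obtain ⟨o, ho, -⟩ := hex
        obtain ⟨Q, rfl⟩ := Multiset.exists_cons_of_mem ho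
        have hQ : Multiset.card Q = n + 1 := by
          rw [Multiset.card_cons] at hP
          omega
        have hw := hI.wk o ho
        have hoc := hcl o ho
        have hex2 : ∃ o' ∈ Q, ∃ x ∈ o.C, x ∈ o'.C := by
          by_cases hu : o.C = univ
          · have : Q ≠ 0 := by
              intro h0
              rw [h0, Multiset.card_zero] at hQ
              omega
            obtain ⟨o', ho'⟩ := Multiset.exists_mem_of_ne_zero this
            refine ⟨o', ho', o'.a, ?_, ?_⟩
            · rw [hu]
              exact Finset.mem_univ _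
            · exact (hI.wk o' (Multiset.mem_cons_of_mem ho')).left
          · obtain ⟨p, hp, x, hx, y, hy, hxA, hyA⟩ := hI.co o.C ⟨o.a, hw.left⟩ hu
            rcases Multiset.mem_cons.1 hp with h1 | h1
            · subst h1
              exact absurd hy hyA
            · exact ⟨p, h1, x, hxA, hx⟩
        obtain ⟨o', ho', x, hx, hx'⟩ := hex2
        have hw' := hI.wk o' (Multiset.mem_cons_of_mem ho')
        have hoc' := hcl o' (Multiset.mem_cons_of_mem ho')
        obtain ⟨Q', rfl⟩ := Multiset.exists_cons_of_mem ho'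
        rw [← hoc] at hw
        rw [← hoc'] at hw'
        obtain ⟨C₁, hC₁, hw₁⟩ := hw.rot x hx
        obtain ⟨C₂, hC₂, hw₂⟩ := hw'.rot x hx'
        refine ⟨o, o', ⟨x, x, o.c + o'.c, C₁ ∪ C₂⟩, Q', rfl, hw₁.trans hw₂,
          Finset.union_subset_union hC₁ hC₂, rfl, ?_⟩
        intro v
        unfold en
        simp only [← hoc, ← hoc']
        exact ((Even.add_self _).add (Even.add_self _)).add (Even.add_self _)
      · push Not at hcl
        obtain ⟨o, ho, hab⟩ := hcl
        obtain ⟨Q, rfl⟩ := Multiset.exists_cons_of_mem ho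
        have hw := hI.wk o ho
        have hev := hI.ev o.b
        rw [Multiset.map_cons, Multiset.sum_cons] at hev
        have hen : en o.b o = 1 := by
          unfold en
          rw [if_neg hab, if_pos rfl]
        rw [hen] at hev
        have hex : ∃ o' ∈ Q, en o.b o' ≠ 0 := by
          by_contra hno
          push Not at hno
          have h0 : (Q.map (en o.b)).sum = 0 := by
            apply Multiset.sum_eq_zero
            intro x hx
            obtain ⟨o', ho', rfl⟩ := Multiset.mem_map.1 hx
            exact hno o' ho'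
          rw [h0] at hev
          exact absurd hev (by decide)
        obtain ⟨o', ho', hne⟩ := hex
        have hw' := hI.wk o' (Multiset.mem_cons_of_mem ho')
        obtain ⟨Q', rfl⟩ := Multiset.exists_cons_of_mem ho'
        by_cases h1 : o'.a = o.b
        · rw [h1] at hw'
          refine ⟨o, o', ⟨o.a, o'.b, o.c + o'.c, o.C ∪ o'.C⟩, Q', rfl, hw.trans hw',
            Finset.Subset.refl _, rfl, ?_⟩
          intro v
          unfold en
          simp only [h1]
          refine ⟨(if o.a = v then 1 else 0) + (if o.b = v then 1 else 0)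
            + (if o'.b = v then 1 else 0), ?_⟩
          ring
        · have h2 : o'.b = o.b := by
            by_contra h2
            apply hne
            unfold en
            rw [if_neg h1, if_neg h2]
          have hw2 := hw'.symm hd
          rw [h2] at hw2
          refine ⟨o, o', ⟨o.a, o'.a, o.c + o'.c, o.C ∪ o'.C⟩, Q', rfl, hw.trans hw2,
            Finset.Subset.refl _, rfl, ?_⟩
          intro v
          unfold en
          simp only [h2]
          refine ⟨(if o.a = v then 1 else 0) + (if o.b = v then 1 else 0)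
            + (if o'.a = v then 1 else 0), ?_⟩
          ring
    obtain ⟨o, o', o'', Q, rfl, hw, hC, hc, he⟩ := key
    have hI' := merge hI hw hC he
    have hcard : Multiset.card (o'' ::ₘ Q) = n + 1 := by
      rw [Multiset.card_cons, Multiset.card_cons] at hP
      rw [Multiset.card_cons]
      omega
    obtain ⟨a, ha⟩ := ih _ hcard hI'
    refine ⟨a, ?_⟩
    have hs : (Multiset.map Ob.c (o ::ₘ o' ::ₘ Q)).sum = (Multiset.map Ob.c (o'' ::ₘ Q)).sum := by
      simp only [Multiset.map_cons, Multiset.sum_cons, hc]
      ring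
    rw [hs]
    exact ha

theorem t_EULER : S_TSPLE → S_EULER := by
  intro hT α _ d hd E hev hco
  by_cases hE : E = []
  · subst hE
    simp only [List.map_nil, List.sum_nil]
    have hall : ∀ x y : α, x = y := by
      intro x y
      by_contra hxy
      obtain ⟨e, he, -⟩ := hco {x} ⟨x, Finset.mem_singleton_self x⟩ (by
        intro h
        have : y ∈ ({x} : Finset α) := by
          rw [h]
          exact Finset.mem_univ y
        exact hxy (Finset.mem_singleton.1 this).symm)
      exact absurd he (by simp)
    by_cases hne : Nonempty α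
    · obtain ⟨a⟩ := hne
      have h1 := hT α d hd univ [a] (by
        intro x _
        rw [hall x a]
        simp)
      have h2 : cyc d [a] = 0 := by
        simp [cyc, walk, hd.self]
      rw [h2] at h1
      exact h1
    · have h1 := hT α d hd univ [] (by
        intro x _
        exact absurd ⟨x⟩ hne)
      exact h1
  · have hI : Inv d ((E.map fun e => (⟨e.1, e.2, d e.1 e.2, {e.1, e.2}⟩ : Ob α) : List (Ob α)) :
        Multiset (Ob α)) := by
      refine ⟨?_, ?_, ?_⟩
      · intro o ho
        rw [Multiset.mem_coe, List.mem_map] at ho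
        obtain ⟨e, -, rfl⟩ := ho
        exact Wk.edge e.1 e.2
      · intro v
        have h1 := hev v
        rw [Multiset.map_coe, Multiset.sum_coe, List.map_map]
        have h2 : (en v ∘ fun e : α × α => (⟨e.1, e.2, d e.1 e.2, {e.1, e.2}⟩ : Ob α)) =
            fun e => (if e.1 = v then 1 else 0) + (if e.2 = v then 1 else 0) := rfl
        rw [h2]
        exact h1
      · intro A hA hA'
        obtain ⟨e, he, h⟩ := hco A hA hA'
        refine ⟨⟨e.1, e.2, d e.1 e.2, {e.1, e.2}⟩, ?_, ?_⟩
        · rw [Multiset.mem_coe, List.mem_map]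
          exact ⟨e, he, rfl⟩
        · rcases h with ⟨h1, h2⟩ | ⟨h1, h2⟩
          · exact ⟨e.1, by simp, e.2, by simp, h1, h2⟩
          · exact ⟨e.2, by simp, e.1, by simp, h2, h1⟩
    obtain ⟨m, hm⟩ : ∃ m, E.length = m + 1 := by
      cases E with
      | nil => exact absurd rfl hE
      | cons a l => exact ⟨l.length, rfl⟩
    obtain ⟨a, ha⟩ := core hd m _ (by
      rw [Multiset.coe_card, List.length_map, hm]) hI
    rw [Multiset.map_coe, Multiset.sum_coe, List.map_map] at ha
    obtain ⟨l, h1, h2⟩ := ha.list hd
    have h3 := hT α d hd univ (a :: l) (by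
      intro x hx
      have := h1 x hx
      simp only [List.mem_cons, List.mem_append, List.not_mem_nil, or_false] at this ⊢
      tauto)
    have h4 : cyc d (a :: l) = walk d (a :: (l ++ [a])) := rfl
    rw [h4, h2] at h3
    exact h3

end Pool.Agent.H551.T.EULER
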